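import Mathlib

set_option autoImplicit false

namespace Pool.Agent.MP_0f46a6_co.H98

/-- The standard inclusion of `ℝ^k` in `ℝ^n` (for `k ≤ n`): keep the `k` coordinates and put
zeros in the remaining ones. -/
noncomputable def incl (k n : ℕ) (x : EuclideanSpace ℝ (Fin k)) : EuclideanSpace ℝ (Fin n) :=
  WithLp.toLp 2 fun i : Fin n => if h : (i : ℕ) < k then x ⟨i, h⟩ else 0

end Pool.Agent.MP_0f46a6_co.H98
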